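import Pool.Agent.H44.DV.Targets

/-!
# Assembly
-/

set_option autoImplicit false

namespace Pool.Agent.H44.DU

open MeasureTheory

/-- A smaller gain is also a gain. -/
lemma Surf.Gain.mono {n : ℕ} {S : Surf n} {t c c' : ℝ} (h : S.Gain t c) (hc : c' ≤ c) :
    S.Gain t c' := by
  intro w x h1 h2
  obtain ⟨u, r, r', w', h3, h4⟩ := h w x h1 h2
  exact ⟨u, r, r', w', h3, hc.trans h4⟩

/-- In almost every direction everything is fine. -/
theorem ok_ae (h1 : T_CO) (h2 : T_GA) (h3 : D_NA) {n : ℕ} (S : Surf n) :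
    ∀ᵐ t : ℝ, ∃ c, S.OK t c := by
  have a1 : ∀ᵐ t : ℝ, S.Gd t := by
    rw [ae_iff]
    exact (h1 n S).measure_zero volume
  have a2 : ∀ᵐ t : ℝ, S.rev.Gd t := by
    rw [ae_iff]
    exact (h1 n S.rev).measure_zero volume
  filter_upwards [a1, a2, h3 n S, h3 n S.rev] with t b1 b2 b3 b4
  obtain ⟨c, hc, g1⟩ := h2 n S |t|
  obtain ⟨c', hc', g2⟩ := h2 n S.rev |t|
  exact ⟨min c c', lt_min hc hc', b1, (g1 t le_rfl).mono (min_le_left _ _), b3, b2,
    (g2 t le_rfl).mono (min_le_right _ _), b4⟩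

/-- The theorem for the slopes. -/
theorem slopes (h1 : T_CO) (h2 : T_GA) (h3 : D_NA) (h4 : D_TD) (h5 : D_NF) (h6 : D_Z1)
    (h7 : D_Z2) (h8 : D_Z3) (h9 : D_GM) (h10 : T_GE) (h11 : D_RR) {n : ℕ} (S : Surf n)
    (hc : S.Connected) :
    ∀ᵐ t : ℝ, S.MorseSmale ((t : ℂ) + Complex.I) ∨
      (S.Minimal ((t : ℂ) + Complex.I) ∧ S.Subexp ((t : ℂ) + Complex.I)) := by
  filter_upwards [ok_ae h1 h2 h3 S, h6 n S, h6 n S.rev] with t ⟨c, hok⟩ k1 k2
  rcases h4 n S t c hc hok with h | ⟨e1, e2⟩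
  · exact Or.inl (h10 n S t hok.gd h)
  · right
    have e3 : S.rev.TPer t = ∅ := by
      rw [Set.eq_empty_iff_forall_notMem]
      intro p hp
      obtain ⟨r1, r2, -, -⟩ := h11 n S.rev t
      have := (r2 p).1 hp
      rw [(h11 n S t).1, e1] at this
      exact this
    have f1 := h7 n S t k1 (fun W c' d hcd => h5 n S t c hok.gd hok.pos hok.gain hok.nw e1 W c' d hcd)
    have f2 := h7 n S.rev t k2
      (fun W c' d hcd => h5 n S.rev t c hok.gdr hok.pos hok.gainr hok.nwr e3 W c' d hcd)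
    exact ⟨(h9 n S t hok.gd).1 e1 e2, (h9 n S t hok.gd).2 f1 (h8 n S t f2)⟩

/-- The theorem for the angles. -/
theorem angles (h1 : T_CO) (h2 : T_GA) (h3 : D_NA) (h4 : D_TD) (h5 : D_NF) (h6 : D_Z1)
    (h7 : D_Z2) (h8 : D_Z3) (h9 : D_GM) (h10 : T_GE) (h11 : D_RR) (h12 : T_SC) (h13 : T_AE)
    (h14 : D_SM) {n : ℕ} (S : Surf n) (hc : S.Connected) :
    ∀ᵐ θ : ℝ, S.MorseSmale (Complex.exp (θ * Complex.I)) ∨
      (S.Minimal (Complex.exp (θ * Complex.I)) ∧ S.Subexp (Complex.exp (θ * Complex.I))) := by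
  have a4 := slopes h1 h2 h3 h4 h5 h6 h7 h8 h9 h10 h11 S hc
  rw [ae_iff] at a4
  filter_upwards [h13 _ a4] with θ ⟨t, ht, l, hl, he⟩
  have ht := not_not.1 ht
  rw [he]
  rcases ht with ht | ⟨ht1, ht2⟩
  · left
    rcases lt_or_gt_of_ne hl with h | h
    · have b1 := (h12 n S _ ht).1 (-l) (by linarith)
      have b2 := (h12 n S _ b1).2
      have : -(((-l : ℝ) : ℂ) * ((t : ℂ) + Complex.I)) = (l : ℂ) * ((t : ℂ) + Complex.I) := by
        push_cast; ring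
      rwa [this] at b2
    · exact (h12 n S _ ht).1 l h
  · exact Or.inr ⟨(h14 n S _ l hl).1 ht1, (h14 n S _ l hl).2 ht2⟩

/-- Directions with a closed leaf. -/
theorem angles_per {n : ℕ} {S : Surf n}
    (h : ∀ᵐ θ : ℝ, S.MorseSmale (Complex.exp (θ * Complex.I)) ∨
      (S.Minimal (Complex.exp (θ * Complex.I)) ∧ S.Subexp (Complex.exp (θ * Complex.I)))) :
    ∀ᵐ θ : ℝ, (S.Per (Complex.exp (θ * Complex.I))).Nonempty →
      S.MorseSmale (Complex.exp (θ * Complex.I)) := by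
  filter_upwards [h] with θ h1 h2
  rcases h1 with h1 | ⟨h1, -⟩
  · exact h1
  · rw [h1.1] at h2
    exact absurd h2 Set.not_nonempty_empty

end Pool.Agent.H44.DU
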