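import Pool.Agent.H44.DV.Targets

/-!
# The scales are bounded on a free interval
-/

set_option autoImplicit false

namespace Pool.Agent.H44.DV.AM

open Pool.Agent.H44.DU Pool.Agent.H44.DU.Surf

lemma wd_last {n : ℕ} (W : ℕ → Side n) (k : ℕ) :
    wd W (k + 1) = wd W k ++ [W k] := by
  simp only [wd, List.range_succ, List.map_append, List.map_cons, List.map_nil]

theorem pf_AM : D_AM := by
  intro n S K
  refine ⟨1 + ∑ s : Side n, (|(S.P s).re| + |(S.Q s).re| + |K| * (|(S.P s).im| + |(S.Q s).im|)),
    ?_, ?_⟩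
  · have : 0 ≤ ∑ s : Side n, (|(S.P s).re| + |(S.Q s).re| + |K| * (|(S.P s).im| + |(S.Q s).im|)) :=
      Finset.sum_nonneg fun s _ => by positivity
    linarith
  intro t ht W c d hcd hF j
  set s := W j with hs
  have hD : |(S.P s).re| + |(S.Q s).re| + |K| * (|(S.P s).im| + |(S.Q s).im|) ≤
      ∑ s : Side n, (|(S.P s).re| + |(S.Q s).re| + |K| * (|(S.P s).im| + |(S.Q s).im|)) :=
    Finset.single_le_sum (f := fun s : Side n =>
      |(S.P s).re| + |(S.Q s).re| + |K| * (|(S.P s).im| + |(S.Q s).im|))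
      (fun s _ => by positivity) (Finset.mem_univ s)
  have hE : xi t (S.P s) - xi t (S.Q s) ≤
      |(S.P s).re| + |(S.Q s).re| + |K| * (|(S.P s).im| + |(S.Q s).im|) := by
    have h1 : |t| ≤ |K| := ht.trans (le_abs_self K)
    have h2 : xi t (S.P s) ≤ |(S.P s).re| + |K| * |(S.P s).im| := by
      unfold xi
      have := le_abs_self (S.P s).re
      have h3 : -(t * (S.P s).im) ≤ |t| * |(S.P s).im| := by
        rw [← abs_mul]; exact neg_le_abs _
      have h4 : |t| * |(S.P s).im| ≤ |K| * |(S.P s).im| :=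
        mul_le_mul_of_nonneg_right h1 (abs_nonneg _)
      linarith
    have h2' : -xi t (S.Q s) ≤ |(S.Q s).re| + |K| * |(S.Q s).im| := by
      unfold xi
      have := neg_le_abs (S.Q s).re
      have h3 : t * (S.Q s).im ≤ |t| * |(S.Q s).im| := by
        rw [← abs_mul]; exact le_abs_self _
      have h4 : |t| * |(S.Q s).im| ≤ |K| * |(S.Q s).im| :=
        mul_le_mul_of_nonneg_right h1 (abs_nonneg _)
      linarith
    linarith
  have key : ∀ x y, c < x → x < y → y < d → S.A (wd W j) * (y - x) <
      xi t (S.P s) - xi t (S.Q s) := by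
    intro x y h1 h2 h3
    have a1 := hF (j + 1) x h1 (h2.trans h3)
    have a2 := hF (j + 1) y (h1.trans h2) h3
    rw [wd_last, run_append, run_single] at a1 a2
    have b1 := a1.2.2.1
    have b2 := a2.2.2.2
    have : S.g t (wd W j) y - S.g t (wd W j) x = S.A (wd W j) * (y - x) := by
      simp only [g]; ring
    rw [← this]
    linarith
  by_contra hcon
  push Not at hcon
  have hA := S.A_pos (wd W j)
  set D := 1 + ∑ s : Side n, (|(S.P s).re| + |(S.Q s).re| + |K| * (|(S.P s).im| + |(S.Q s).im|))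
  have h5 : xi t (S.P s) - xi t (S.Q s) < D := by linarith
  have h6 : D < S.A (wd W j) * (d - c) := hcon
  have h7 : D / S.A (wd W j) < d - c := by
    rw [div_lt_iff₀ hA]; linarith
  have hDp : 0 < D := by
    have h8 := key (c + (d - c) / 3) (c + 2 * (d - c) / 3) (by linarith) (by linarith)
      (by linarith)
    have h9 : 0 < S.A (wd W j) * (c + 2 * (d - c) / 3 - (c + (d - c) / 3)) := by
      apply mul_pos hA; linarith
    linarith
  -- shrink
  set ρ := (d - c - D / S.A (wd W j)) / 2
  have hρ : 0 < ρ := by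
    simp only [ρ]; linarith
  have h10 := key (c + ρ) (c + ρ + D / S.A (wd W j)) (by linarith)
    (by have := div_pos hDp hA; linarith) (by simp only [ρ]; linarith)
  have h11 : S.A (wd W j) * (c + ρ + D / S.A (wd W j) - (c + ρ)) = D := by
    rw [add_sub_cancel_left, mul_div_cancel₀ _ hA.ne']
  linarith

end Pool.Agent.H44.DV.AM
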