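import Pool.Agent.H44.DV.Targets

/-!
# The criterion for a word to be realised
-/

set_option autoImplicit false

namespace Pool.Agent.H44.DV.RC

open Pool.Agent.H44.DU Pool.Agent.H44.DU.Surf

lemma wd_succ' {n : ℕ} (W : ℕ → Side n) (k : ℕ) :
    wd W (k + 1) = W 0 :: wd (fun i => W (i + 1)) k := by
  simp only [wd, List.range_succ_eq_map, List.map_cons, List.map_map]
  rfl

lemma xi_dev_cons {n : ℕ} (S : Surf n) (t : ℝ) (r : Side n) (v : List (Side n)) (c : Side n) :
    S.mv t r (xi t (S.dev (r :: v) c)) = xi t (S.dev v c) := by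
  have h1 : S.a r ≠ 0 := (S.a_pos r).ne'
  have h2 : S.A v ≠ 0 := (S.A_pos v).ne'
  simp only [dev, mv, xi_div, xi_sub, A, B, xi_add, xi_mul]
  field_simp
  ring

lemma xi_dev_nil {n : ℕ} (S : Surf n) (t : ℝ) (c : Side n) :
    xi t (S.dev [] c) = xi t (S.P c) := by
  simp [dev, A, B]

theorem pf_RC : D_RC := by
  intro n S t x W k
  induction k generalizing W x with
  | zero => simp [wd, Run]
  | succ k ih =>
    have hl : ∀ j, S.mv t (W 0) (S.lc t W (j + 1)) = S.lc t (fun i => W (i + 1)) j := by
      intro j
      unfold lc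
      rw [wd_succ', xi_dev_cons]
    have hr : ∀ j, S.mv t (W 0) (S.rc t W (j + 1)) = S.rc t (fun i => W (i + 1)) j := by
      intro j
      unfold rc
      rw [wd_succ', xi_dev_cons]
    have hl0 : S.lc t W 0 = xi t (S.Q (W 0)) := by
      unfold lc
      rw [show wd W 0 = [] from rfl, xi_dev_nil, P_nx]
    have hr0 : S.rc t W 0 = xi t (S.P (W 0)) := by
      unfold rc
      rw [show wd W 0 = [] from rfl, xi_dev_nil]
    rw [wd_succ', Run, ih (S.mv t (W 0) x) (fun i => W (i + 1))]
    constructor
    · rintro ⟨h1, h2, h3, h4⟩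
      refine ⟨fun j hj => ?_, fun j hj => ?_⟩
      · rcases j with _ | j
        · apply h2
          obtain ⟨k, rfl⟩ : ∃ k', k = k' + 1 := ⟨k - 1, by omega⟩
          rw [wd_succ']
          simp
        · exact h3 j (by omega)
      · rcases j with _ | j
        · rw [hl0, hr0]; exact h1
        · have h5 := h4 j (by omega)
          rw [← hl, ← hr, mv_lt_iff, mv_lt_iff] at h5
          exact h5
    · rintro ⟨h1, h2⟩
      refine ⟨?_, ?_, fun j hj => h1 (j + 1) (by omega), fun j hj => ?_⟩
      · have h3 := h2 0 (by omega)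
        rw [hl0, hr0] at h3
        exact h3
      · intro r' hr'
        rcases k with _ | k
        · simp [wd] at hr'
        · rw [wd_succ'] at hr'
          simp only [List.head?_cons, Option.mem_def, Option.some.injEq] at hr'
          rw [← hr']
          exact h1 0 (by omega)
      · rw [← hl, ← hr, mv_lt_iff, mv_lt_iff]
        exact h2 (j + 1) (by omega)

end Pool.Agent.H44.DV.RC
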