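import Pool.Agent.H44.DV.Final
import Pool.Agent.H44.DV.RC

/-!
# Trapping regions
-/

set_option autoImplicit false

namespace Pool.Agent.H44.DU

namespace Surf

variable {n : ℕ} (S : Surf n)

/-- The set `U` of triangles is a trapping region for the direction `d`: it is neither empty nor
everything, and the leaves of direction `d` never leave it, since they cross every side between a
triangle of `U` and a triangle outside `U` towards `U`. -/
def Traps (d : ℂ) (U : Set (Fin n)) : Prop :=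
  U.Nonempty ∧ Uᶜ.Nonempty ∧ ∀ s, s.1 ∈ U → (S.gl s).1 ∉ U → S.Enters d s

end Surf

end Pool.Agent.H44.DU

namespace Pool.Agent.H44.DV.Trap

open Pool.Agent.H44.DU Pool.Agent.H44.DU.Surf MeasureTheory

variable {n : ℕ} {S : Surf n}

lemma enters_iff (t : ℝ) (s : Side n) :
    S.Enters ((t : ℂ) + Complex.I) s ↔ xi t (S.P s) < xi t (S.Q s) := by
  simp only [Enters, xi, Complex.add_re, Complex.add_im, Complex.ofReal_re, Complex.ofReal_im,
    Complex.I_re, Complex.I_im, Complex.sub_re, Complex.sub_im]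
  constructor <;> intro h <;> nlinarith

lemma enters_pos {d : ℂ} {s : Side n} {l : ℝ} (hl : 0 < l) :
    S.Enters ((l : ℂ) * d) s ↔ S.Enters d s := by
  simp only [Enters, Complex.mul_re, Complex.mul_im, Complex.ofReal_re, Complex.ofReal_im,
    zero_mul, sub_zero, add_zero]
  constructor
  · intro h
    have : 0 < l * ((S.Q s - S.P s).re * d.im - (S.Q s - S.P s).im * d.re) := by
      linarith
    exact (mul_pos_iff_of_pos_left hl).1 this
  · intro h
    have := mul_pos hl h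
    linarith

lemma enters_neg_gl {d : ℂ} {s : Side n} : S.Enters (-d) s ↔ S.Enters d (S.gl s) := by
  have h1 : S.Q (S.gl s) - S.P (S.gl s) = -((S.a s : ℂ) * (S.Q s - S.P s)) := by
    rw [Q_gl, P_gl]; ring
  simp only [Enters, h1, Complex.neg_re, Complex.neg_im, Complex.mul_re, Complex.mul_im,
    Complex.ofReal_re, Complex.ofReal_im, zero_mul, sub_zero, add_zero]
  have ha := S.a_pos s
  constructor
  · intro h
    have := mul_pos ha h
    linarith
  · intro h
    have : 0 < S.a s * ((S.Q s - S.P s).re * -d.im - (S.Q s - S.P s).im * -d.re) := by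
      linarith
    exact (mul_pos_iff_of_pos_left ha).1 this

lemma traps_pos {d : ℂ} {U : Set (Fin n)} {l : ℝ} (hl : 0 < l) :
    S.Traps ((l : ℂ) * d) U ↔ S.Traps d U := by
  simp only [Traps, enters_pos hl]

lemma traps_neg {d : ℂ} {U : Set (Fin n)} (h : S.Traps (-d) U) : S.Traps d Uᶜ := by
  obtain ⟨h1, h2, h3⟩ := h
  refine ⟨h2, by rwa [compl_compl], ?_⟩
  intro s hs hg
  have hg' : (S.gl s).1 ∈ U := by
    by_contra hc
    exact hg hc
  have := h3 (S.gl s) hg' (by rw [S.gl_gl]; exact hs)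
  rw [enters_neg_gl, S.gl_gl] at this
  exact this

lemma traps_scale {d : ℂ} {l : ℝ} (hl : l ≠ 0) (h : ∃ U, S.Traps ((l : ℂ) * d) U) :
    ∃ U, S.Traps d U := by
  obtain ⟨U, hU⟩ := h
  rcases lt_or_gt_of_ne hl with h0 | h0
  · have h1 : (l : ℂ) * d = -(((-l : ℝ) : ℂ) * d) := by push_cast; ring
    rw [h1] at hU
    exact ⟨Uᶜ, (traps_pos (by linarith)).1 (traps_neg hU)⟩
  · exact ⟨U, (traps_pos h0).1 hU⟩

/-- Every triangle has a side through which leaves leave it. -/
lemma exists_out {t : ℝ} (hG : S.Gd t) (i : Fin n) :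
    ∃ r : Side n, r.1 = i ∧ xi t (S.Q r) < xi t (S.P r) := by
  by_contra hcon
  push Not at hcon
  have h0 := hcon (i, 0) rfl
  have h1 := hcon (nx (i, 0)) rfl
  have h2 := hcon (nx (nx (i, 0))) rfl
  rw [P_nx, Q_nx] at h1
  rw [P_nx_nx, Q_nx_nx] at h2
  have e1 : xi t (S.P (i, 0)) = xi t (S.Q (i, 0)) := by linarith
  have d1 : ∀ c : Side n, S.dev [] c = S.P c := by
    intro c; simp [dev, A, B]
  have e2 := hG [] [] (i, 0) (nx (i, 0))
  rw [d1, d1, P_nx] at e2
  have e3 := e2 e1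
  apply S.P_ne_Q (i, 0)
  have e4 : (S.P (i, 0)).re = (S.Q (i, 0)).re := by
    unfold xi at e1
    rw [e3] at e1
    linarith
  exact Complex.ext e4 e3

/-- A coordinate which is not the coordinate of a developed corner. -/
def Gen (S : Surf n) (t x : ℝ) : Prop := ∀ (w : List (Side n)) (c : Side n), x ≠ xi t (S.dev w c)

lemma exists_gen (t a b : ℝ) (h : a < b) : ∃ x, a < x ∧ x < b ∧ Gen S t x := by
  have hc : (Set.range fun p : List (Side n) × Side n => xi t (S.dev p.1 p.2)).Countable :=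
    Set.countable_range _
  have hd := hc.dense_compl ℝ
  obtain ⟨x, hx1, hx2⟩ := hd.exists_between h
  exact ⟨x, hx2.1, hx2.2, fun w c he => hx1 ⟨(w, c), he.symm⟩⟩

lemma gen_mv {t x : ℝ} (h : Gen S t x) (r : Side n) : Gen S t (S.mv t r x) := by
  intro w c he
  rw [← RC.xi_dev_cons S t r w c] at he
  exact h (r :: w) c (S.mv_inj t r he)

lemma next {t x : ℝ} {r : Side n} (h : S.InJ t r x) (hg : Gen S t x) :
    ∃ r' : Side n, (S.gl r).1 = r'.1 ∧ S.InJ t r' (S.mv t r x) := by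
  have h1 := (S.inI_gl_iff t r x).2 h
  have h2 := gen_mv hg r
  have h3 : S.mv t r x ≠ xi t (S.O (S.gl r)) := by
    have := h2 [] (nx (nx (S.gl r)))
    rwa [show S.dev [] (nx (nx (S.gl r))) = S.O (S.gl r) by
      simp [dev, A, B, P_nx_nx]] at this
  rcases lt_or_gt_of_ne h3 with h4 | h4
  · exact ⟨nx (nx (S.gl r)), rfl, S.exit_left h1 h4⟩
  · exact ⟨nx (S.gl r), rfl, S.exit_right h1 h4⟩

/-- A generic state has an infinite forward chain. -/
lemma exists_chain {t : ℝ} (p : Side n × ℝ) (h : S.InJ t p.1 p.2) (hg : Gen S t p.2) :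
    ∃ y : ℕ → Side n × ℝ, (∀ k, S.Tr t (y k) (y (k + 1))) ∧ y 0 = p := by
  classical
  have hn : ∀ q : {q : Side n × ℝ // S.InJ t q.1 q.2 ∧ Gen S t q.2},
      ∃ q' : {q : Side n × ℝ // S.InJ t q.1 q.2 ∧ Gen S t q.2}, S.Tr t q.1 q'.1 := by
    rintro ⟨q, hq1, hq2⟩
    obtain ⟨r', hr1, hr2⟩ := next hq1 hq2
    exact ⟨⟨(r', S.mv t q.1 q.2), hr2, gen_mv hq2 q.1⟩, hq1, hr2, hr1, rfl⟩
  choose f hf using hn
  refine ⟨fun k => ((f^[k]) ⟨p, h, hg⟩).1, fun k => ?_, rfl⟩
  show S.Tr t ((f^[k]) ⟨p, h, hg⟩).1 ((f^[k + 1]) ⟨p, h, hg⟩).1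
  rw [Function.iterate_succ_apply']
  exact hf _

/-- In a good direction with a trapping region not every leaf is dense. -/
theorem not_traps {t : ℝ} (hG : S.Gd t) (hm : S.TMin t) (U : Set (Fin n)) :
    ¬ S.Traps ((t : ℂ) + Complex.I) U := by
  rintro ⟨⟨i, hi⟩, ⟨j, hj⟩, h3⟩
  obtain ⟨r, hr1, hr2⟩ := exists_out hG i
  obtain ⟨x, hx1, hx2, hx3⟩ := exists_gen (S := S) t _ _ hr2
  obtain ⟨y, hy, hy0⟩ := exists_chain (S := S) (t := t) (r, x) ⟨hx1, hx2⟩ hx3
  have hU : ∀ k, (y k).1.1 ∈ U := by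
    intro k
    induction k with
    | zero => rw [hy0]; simpa [hr1] using hi
    | succ k ih =>
      by_contra hc
      have hk := hy k
      rw [← hk.2.2.1] at hc
      have h4 := h3 (y k).1 ih hc
      rw [enters_iff] at h4
      have := hk.1.1.trans hk.1.2
      linarith
  obtain ⟨r', hr1', hr2'⟩ := exists_out hG j
  obtain ⟨x', hx1', hx2'⟩ := exists_between hr2'
  obtain ⟨k, -, hk, -⟩ := hm.fwd y hy r' x' ⟨hx1', hx2'⟩ 1 one_pos 0
  have := hU k
  rw [hk, hr1'] at this
  exact hj this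

/-- The theorem for the slopes. -/
theorem slopes (h1 : T_CO) (h2 : T_GA) (h3 : D_NA) (h4 : D_TD) (h10 : T_GE) {n : ℕ} (S : Surf n)
    (hc : S.Connected) :
    ∀ᵐ t : ℝ, (∃ U, S.Traps ((t : ℂ) + Complex.I) U) → S.MorseSmale ((t : ℂ) + Complex.I) := by
  filter_upwards [ok_ae h1 h2 h3 S] with t ⟨c, hok⟩ ⟨U, hU⟩
  rcases h4 n S t c hc hok with h | ⟨-, e2⟩
  · exact h10 n S t hok.gd h
  · exact absurd hU (not_traps hok.gd e2 U)

/-- The theorem for the angles. -/
theorem angles (h1 : T_CO) (h2 : T_GA) (h3 : D_NA) (h4 : D_TD) (h10 : T_GE) (h12 : T_SC)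
    (h13 : T_AE) {n : ℕ} (S : Surf n) (hc : S.Connected) :
    ∀ᵐ θ : ℝ, (∃ U, S.Traps (Complex.exp (θ * Complex.I)) U) →
      S.MorseSmale (Complex.exp (θ * Complex.I)) := by
  have a4 := slopes h1 h2 h3 h4 h10 S hc
  rw [ae_iff] at a4
  filter_upwards [h13 _ a4] with θ ⟨t, ht, l, hl, he⟩
  have ht := not_not.1 ht
  rw [he]
  intro hU
  have hms := ht (traps_scale hl hU)
  rcases lt_or_gt_of_ne hl with h | h
  · have b1 := (h12 n S _ hms).1 (-l) (by linarith)
    have b2 := (h12 n S _ b1).2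
    have : -(((-l : ℝ) : ℂ) * ((t : ℂ) + Complex.I)) = (l : ℂ) * ((t : ℂ) + Complex.I) := by
      push_cast; ring
    rwa [this] at b2
  · exact (h12 n S _ hms).1 l h

/-- Regions with a boundary of one direction. -/
theorem parallel (h13 : T_AE) {n : ℕ} (S : Surf n) (U : Set (Fin n)) (u : ℂ) (hu : u ≠ 0)
    (hU : U.Nonempty) (hU' : Uᶜ.Nonempty)
    (hb : ∀ s : Side n, s.1 ∈ U → (S.gl s).1 ∉ U → ∃ r : ℝ, 0 < r ∧ S.Q s - S.P s = (r : ℂ) * u) :
    ∀ᵐ θ : ℝ, ∃ V, S.Traps (Complex.exp (θ * Complex.I)) V := by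
  have hZ : volume {t : ℝ | u.re = t * u.im} = 0 := by
    have hsub : {t : ℝ | u.re = t * u.im} ⊆ {u.re / u.im} := by
      intro t ht
      have ht' : u.re = t * u.im := ht
      have him : u.im ≠ 0 := by
        intro h0
        rw [h0, mul_zero] at ht'
        exact hu (Complex.ext ht' h0)
      rw [Set.mem_singleton_iff, eq_div_iff him]
      exact ht'.symm
    exact measure_mono_null hsub (by simp)
  filter_upwards [h13 _ hZ] with θ ⟨t, ht, l, hl, he⟩
  have ht' : u.re ≠ t * u.im := ht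
  rw [he]
  -- the direction `t + i`
  have key : ∃ V, S.Traps ((t : ℂ) + Complex.I) V := by
    rcases lt_or_gt_of_ne ht' with h | h
    · refine ⟨Uᶜ, hU', by rwa [compl_compl], ?_⟩
      intro s hs hg
      have hg' : (S.gl s).1 ∈ U := by
        by_contra hc
        exact hg hc
      obtain ⟨r, hr, hrs⟩ := hb (S.gl s) hg' (by rw [S.gl_gl]; exact hs)
      rw [← S.gl_gl s, ← enters_neg_gl]
      simp only [Enters, hrs, Complex.mul_re, Complex.mul_im, Complex.ofReal_re,
        Complex.ofReal_im, Complex.neg_re, Complex.neg_im, Complex.add_re, Complex.add_im,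
        Complex.I_re, Complex.I_im, zero_mul, sub_zero, add_zero, zero_add]
      nlinarith
    · refine ⟨U, hU, hU', ?_⟩
      intro s hs hg
      obtain ⟨r, hr, hrs⟩ := hb s hs hg
      simp only [Enters, hrs, Complex.mul_re, Complex.mul_im, Complex.ofReal_re,
        Complex.ofReal_im, Complex.add_re, Complex.add_im,
        Complex.I_re, Complex.I_im, zero_mul, sub_zero, add_zero, zero_add]
      nlinarith
  have h2 : (t : ℂ) + Complex.I = ((l⁻¹ : ℝ) : ℂ) * ((l : ℂ) * ((t : ℂ) + Complex.I)) := by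
    have : (l : ℂ) ≠ 0 := by exact_mod_cast hl
    push_cast
    field_simp
  rw [h2] at key
  exact traps_scale (inv_ne_zero hl) key

end Pool.Agent.H44.DV.Trap
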