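import Pool.Agent.H44.DU.Defs

/-!
# Minimal directional foliations of dilation surfaces
-/

set_option autoImplicit false

namespace Pool.Agent.H44.DU.Surf

variable {n : ℕ} (S : Surf n)

/-- The leaves of direction `d` enter the triangle of the side `s` through `s`. -/
def Enters (d : ℂ) (s : Side n) : Prop :=
  0 < (S.Q s - S.P s).re * d.im - (S.Q s - S.P s).im * d.re

/-- The sequence `x` accumulates at every point of every open side through which the leaves of
direction `d` enter a triangle, that is, at every point of every open side which is crossed by the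
leaves. -/
def DenseSeq (d : ℂ) (x : ℕ → Side n × ℂ) : Prop :=
  ∀ s, S.Enters d s → ∀ z ∈ openSegment ℝ (S.P s) (S.Q s),
    ∀ ε > (0 : ℝ), ∀ N : ℕ, ∃ k ≥ N, (x k).1 = s ∧ ‖(x k).2 - z‖ < ε

/-- The foliation of direction `d` is minimal: there is no closed leaf, and every leaf is dense in
each time direction in which it is defined for all time. -/
def Minimal (d : ℂ) : Prop :=
  S.Per d = ∅ ∧
  (∀ x : ℕ → Side n × ℂ, (∀ k, ∃ c, S.Step d c (x k) (x (k + 1))) → S.DenseSeq d x) ∧
  (∀ x : ℕ → Side n × ℂ, (∀ k, ∃ c, S.Step d c (x (k + 1)) (x k)) → S.DenseSeq d x)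

/-- The scales along the leaves of direction `d` grow and decrease subexponentially, uniformly: the
product of the scales of any `m` consecutive steps of a leaf is between `C⁻¹ * exp (-ε * m)` and
`C * exp (ε * m)`, for every `ε > 0` with a constant `C = C(ε)`. -/
def Subexp (d : ℂ) : Prop :=
  ∀ ε > (0 : ℝ), ∃ C > (0 : ℝ), ∀ (m : ℕ) (x : ℕ → Side n × ℂ) (c : ℕ → ℝ),
    (∀ k < m, S.Step d (c k) (x k) (x (k + 1))) →
    C⁻¹ * Real.exp (-ε * m) ≤ ∏ k ∈ Finset.range m, c k ∧
    ∏ k ∈ Finset.range m, c k ≤ C * Real.exp (ε * m)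

end Pool.Agent.H44.DU.Surf
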