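import Pool.Agent.H44.DU.Basic2
import Pool.Agent.H44.DV.Defs

/-!
# Almost every foliation is Morse-Smale or minimal: the statements of the modules
-/

set_option autoImplicit false

namespace Pool.Agent.H44.DU

open MeasureTheory

/-! ## Definitions used in the statements -/

/-- The first `k` letters of the sequence `W`. -/
def wd {n : ℕ} (W : ℕ → Side n) (k : ℕ) : List (Side n) := (List.range k).map W

/-- The sequence is eventually periodic. -/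
def EvPer {n : ℕ} (W : ℕ → Side n) : Prop := ∃ K p : ℕ, 0 < p ∧ ∀ k ≥ K, W (k + p) = W k

/-- The sequence `y` accumulates at `p`. -/
def Acc {n : ℕ} (y : ℕ → Side n × ℝ) (p : Side n × ℝ) : Prop :=
  ∀ ε > (0 : ℝ), ∀ N : ℕ, ∃ k ≥ N, (y k).1 = p.1 ∧ |(y k).2 - p.2| < ε

namespace Surf

variable {n : ℕ} (S : Surf n)

/-- The coordinate of the right corner of the side number `j` of the sequence, developed to the
beginning. -/
noncomputable def rc (t : ℝ) (W : ℕ → Side n) (j : ℕ) : ℝ := xi t (S.dev (wd W j) (W j))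

/-- The coordinate of the left corner of the side number `j` of the sequence, developed to the
beginning. -/
noncomputable def lc (t : ℝ) (W : ℕ → Side n) (j : ℕ) : ℝ := xi t (S.dev (wd W j) (nx (W j)))

/-- The interval `(c, d)` is free: all its leaves cross the sides `W 0, W 1, W 2, ...`. -/
def Fr (t : ℝ) (W : ℕ → Side n) (c d : ℝ) : Prop :=
  ∀ (k : ℕ) (x : ℝ), c < x → x < d → S.Run t (wd W k) x

/-- There are no wandering intervals. -/
def NW (t : ℝ) : Prop := ∀ (W : ℕ → Side n) (c d : ℝ), c < d → S.Fr t W c d → EvPer W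

/-- The height of the crossing number `j` of the leaf of direction `s + i` which starts at `z`,
above the height of `z`. -/
noncomputable def hj (s : ℝ) (W : ℕ → Side n) (z : ℂ) (j : ℕ) : ℝ :=
  S.ht s (wd W j) (W j) (xi s z) - z.im

/-- The directions `t` with `|t| ≤ K` for which the interval of radius `w` around `z` is free and
infinitely many right corners are at the distance at most `C` from the leaf of `z`. -/
def Th (r : Side n) (z : ℂ) (w C K : ℝ) : Set ℝ :=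
  {t | |t| ≤ K ∧ ∃ W : ℕ → Side n, W 0 = r ∧ S.Fr t W (xi t z - w) (xi t z + w) ∧
    ∀ N : ℕ, ∃ k ≥ N, S.rc t W k ≤ xi t z + C}

/-- The sequence accumulates at every state. -/
def Dns (t : ℝ) (y : ℕ → Side n × ℝ) : Prop := ∀ (r : Side n) (x : ℝ), S.InJ t r x → Acc y (r, x)

/-- Every half leaf is dense. -/
structure TMin (t : ℝ) : Prop where
  fwd : ∀ y : ℕ → Side n × ℝ, (∀ k, S.Tr t (y k) (y (k + 1))) → S.Dns t y
  bwd : ∀ y : ℕ → Side n × ℝ, (∀ k, S.Tr t (y (k + 1)) (y k)) → S.Dns t y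

/-- Everything which holds in almost every direction. -/
structure OK (t c : ℝ) : Prop where
  pos : 0 < c
  gd : S.Gd t
  gain : S.Gain t c
  nw : S.NW t
  gdr : S.rev.Gd t
  gainr : S.rev.Gain t c
  nwr : S.rev.NW t

/-- The word `w ++ [l]` is cut at its end by the next vertex, even in the closed sense. -/
def Cut (t : ℝ) (w : List (Side n)) (l : Side n) : Prop :=
  (∃ y, S.Run t (w ++ [l]) y) ∧ ∃ x, S.lo t (w ++ [l]) ≤ x ∧ x ≤ S.hi t (w ++ [l]) ∧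
    S.g t (w ++ [l]) x = xi t (S.O (S.gl l))

/-- Long words whose scale is exponentially small are not cut. -/
def NBE (t : ℝ) : Prop :=
  ∀ ε > (0 : ℝ), ∃ m₀ : ℕ, ∀ (w : List (Side n)) (l : Side n), m₀ ≤ (w ++ [l]).length →
    S.A (w ++ [l]) ≤ Real.exp (-ε * (w ++ [l]).length) → ¬ S.Cut t w l

/-- The scales decrease subexponentially. -/
def TLow (t : ℝ) : Prop :=
  ∀ ε > (0 : ℝ), ∃ C > (0 : ℝ), ∀ (w : List (Side n)) (x : ℝ), S.Run t w x →
    C⁻¹ * Real.exp (-ε * w.length) ≤ S.A w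

/-- The scales grow subexponentially. -/
def TUpp (t : ℝ) : Prop :=
  ∀ ε > (0 : ℝ), ∃ C > (0 : ℝ), ∀ (w : List (Side n)) (x : ℝ), S.Run t w x →
    S.A w ≤ C * Real.exp (ε * w.length)

end Surf

/-! ## Corners -/

/-- The criterion for a word to be realised. -/
def D_RC : Prop :=
  ∀ (n : ℕ) (S : Surf n) (t x : ℝ) (W : ℕ → Side n) (k : ℕ),
    S.Run t (wd W k) x ↔ (∀ j, j + 1 < k → (S.gl (W j)).1 = (W (j + 1)).1) ∧
      ∀ j < k, S.lc t W j < x ∧ x < S.rc t W j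

/-- Shifting the sequence. -/
def D_SH : Prop :=
  ∀ (n : ℕ) (S : Surf n) (t : ℝ) (W : ℕ → Side n) (m j : ℕ),
    S.rc t (fun i => W (m + i)) j = S.g t (wd W m) (S.rc t W (m + j)) ∧
    S.lc t (fun i => W (m + i)) j = S.g t (wd W m) (S.lc t W (m + j)) ∧
    wd W (m + j) = wd W m ++ wd (fun i => W (m + i)) j

/-- A free interval which is not attracted has infinitely many right corners nearby. -/
def D_CL : Prop :=
  ∀ (n : ℕ) (S : Surf n) (t : ℝ) (W : ℕ → Side n) (c d : ℝ), c < d → S.Fr t W c d →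
    ¬ EvPer W → ∃ C > (0 : ℝ), ∀ N : ℕ, ∃ k ≥ N, S.rc t W k ≤ C

/-- The crossing points of the leaf of direction `s + i` through `z`, seen from the direction
`t + i`. -/
def D_CP : Prop :=
  ∀ (n : ℕ) (S : Surf n) (s t : ℝ) (z : ℂ) (W : ℕ → Side n) (j : ℕ),
    S.Run s (wd W (j + 1)) (xi s z) → ∃ l : ℝ, 0 < l ∧ l < 1 ∧
      (1 - l) * S.rc t W j + l * S.lc t W j = xi t z + (s - t) * S.hj s W z j

/-- The heights of the crossings are monotone. -/
def D_HM : Prop :=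
  ∀ (n : ℕ) (S : Surf n) (s : ℝ) (z : ℂ) (W : ℕ → Side n) (i j : ℕ), i ≤ j →
    z ∈ openSegment ℝ (S.P (W 0)) (S.Q (W 0)) → S.Run s (wd W (j + 1)) (xi s z) →
    0 ≤ S.hj s W z i ∧ S.hj s W z i ≤ S.hj s W z j

/-- The heights of the crossings go to infinity. -/
def D_HG : Prop :=
  ∀ (n : ℕ) (S : Surf n) (K M L : ℝ), ∃ k₀ : ℕ, ∀ s, |s| ≤ K → ∀ (z : ℂ) (W : ℕ → Side n) (k : ℕ),
    k₀ ≤ k → z ∈ openSegment ℝ (S.P (W 0)) (S.Q (W 0)) → S.Run s (wd W (k + 1)) (xi s z) →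
    (∀ j ≤ k, S.A (wd W j) ≤ M) → L ≤ S.hj s W z k

/-- The scales are bounded on a free interval. -/
def D_AM : Prop :=
  ∀ (n : ℕ) (S : Surf n) (K : ℝ), ∃ D > (0 : ℝ), ∀ t, |t| ≤ K → ∀ (W : ℕ → Side n) (c d : ℝ),
    c < d → S.Fr t W c d → ∀ j, S.A (wd W j) * (d - c) ≤ D

/-- A free interval sees the same letters as the leaves of nearby directions, up to the height
`w / |t - s|`. -/
def D_KP : Prop :=
  ∀ (n : ℕ) (S : Surf n) (s t w : ℝ) (z : ℂ) (W V : ℕ → Side n) (k : ℕ), 0 < w →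
    z ∈ openSegment ℝ (S.P (W 0)) (S.Q (W 0)) → S.Run s (wd W (k + 1)) (xi s z) →
    S.Fr t V (xi t z - w) (xi t z + w) → V 0 = W 0 → |t - s| * S.hj s W z k < w →
    ∀ j ≤ k, V j = W j

/-- The directions in which a word is realised at `z` form an open interval. -/
def D_OC : Prop :=
  ∀ (n : ℕ) (S : Surf n) (z : ℂ) (W : ℕ → Side n) (k : ℕ),
    IsOpen {s : ℝ | S.Run s (wd W k) (xi s z)} ∧
    {s : ℝ | S.Run s (wd W k) (xi s z)}.OrdConnected

/-- The set `Th` is porous. -/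
def D_PS : Prop :=
  ∀ (n : ℕ) (S : Surf n) (r : Side n) (z : ℂ) (w C K : ℝ), 0 < w → 0 < C →
    z ∈ openSegment ℝ (S.P r) (S.Q r) → ∀ t ∈ S.Th r z w C K, ∀ ε > (0 : ℝ), ∃ s, t < s ∧
      s < t + ε ∧ ∀ t', s < t' → t' < s + w / C * (s - t) → t' ∉ S.Th r z w C K

/-- Porous sets have measure zero. -/
def D_PO : Prop :=
  ∀ (Θ : Set ℝ) (κ : ℝ), 0 < κ → (∀ t ∈ Θ, ∀ ε > (0 : ℝ), ∃ s, t < s ∧ s < t + ε ∧
    ∀ t', s < t' → t' < s + κ * (s - t) → t' ∉ Θ) → volume Θ = 0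

/-- In almost every direction there are no wandering intervals. -/
def D_NA : Prop := ∀ (n : ℕ) (S : Surf n), ∀ᵐ t : ℝ, S.NW t

/-! ## Periodic letters -/

/-- A free interval with periodic letters is attracted. -/
def D_PE : Prop :=
  ∀ (n : ℕ) (S : Surf n) (t c₀ : ℝ), S.Gd t → 0 < c₀ → S.Gain t c₀ →
    ∀ (W : ℕ → Side n) (c d : ℝ) (p : ℕ), c < d → S.Fr t W c d → 0 < p →
    (∀ k, W (k + p) = W k) →
    S.A (wd W p) < 1 ∧ ∃ x, S.g t (wd W p) x = x ∧ ∀ k, S.Run t (wd W k) x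

/-- A leaf whose letters are those of a free interval accumulates at a closed leaf. -/
def D_AT : Prop :=
  ∀ (n : ℕ) (S : Surf n) (t c₀ : ℝ), S.Gd t → 0 < c₀ → S.Gain t c₀ → S.NW t →
    ∀ (y : ℕ → Side n × ℝ) (c d : ℝ), (∀ k, S.Tr t (y k) (y (k + 1))) → c < d →
    S.Fr t (fun k => (y k).1) c d → S.TAcc t y

/-- If there are no closed leaves, there are no free intervals. -/
def D_NF : Prop :=
  ∀ (n : ℕ) (S : Surf n) (t c₀ : ℝ), S.Gd t → 0 < c₀ → S.Gain t c₀ → S.NW t →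
    S.TPer t = ∅ → ∀ (W : ℕ → Side n) (c d : ℝ), c < d → ¬ S.Fr t W c d

/-- The closed leaves are hyperbolic. -/
def D_HY : Prop :=
  ∀ (n : ℕ) (S : Surf n) (t c₀ : ℝ), S.Gd t → 0 < c₀ → S.Gain t c₀ →
    ∀ (m : ℕ) (y : ℕ → Side n × ℝ), S.TCyc t m y → ∏ k ∈ Finset.range m, S.a (y k).1 ≠ 1

/-- There are finitely many attracting periodic states. -/
def D_FA : Prop :=
  ∀ (n : ℕ) (S : Surf n) (t : ℝ),
    {p | ∃ m y, S.TCyc t m y ∧ y 0 = p ∧ ∏ k ∈ Finset.range m, S.a (y k).1 < 1}.Finite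

/-! ## Reversing -/

/-- The reversed surface. -/
def D_RR : Prop :=
  ∀ (n : ℕ) (S : Surf n) (t : ℝ), S.rev.rev = S ∧
    (∀ p : Side n × ℝ, p ∈ S.TPer t ↔ S.io t p ∈ S.rev.TPer t) ∧
    (∀ (y : ℕ → Side n × ℝ) (p : Side n × ℝ), Acc y p ↔
      Acc (fun k => S.io t (y k)) (S.io t p)) ∧
    (∀ (r : Side n) (x : ℝ), S.InJ t r x ↔ S.rev.InJ t (S.gl r) (-S.mv t r x))

/-- There are finitely many periodic states. -/
def D_FI : Prop :=
  ∀ (n : ℕ) (S : Surf n) (t c : ℝ), S.OK t c → (S.TPer t).Finite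

/-! ## The dichotomy -/

/-- The set of the states at which a leaf accumulates is invariant. -/
def D_IV : Prop :=
  ∀ (n : ℕ) (S : Surf n) (t : ℝ) (y : ℕ → Side n × ℝ), (∀ k, S.Tr t (y k) (y (k + 1))) →
    ∀ p q : Side n × ℝ, S.Tr t p q → (Acc y p ↔ Acc y q)

/-- Every leaf accumulates at a state. -/
def D_AC : Prop :=
  ∀ (n : ℕ) (S : Surf n) (t c₀ : ℝ), S.Gd t → 0 < c₀ → S.Gain t c₀ →
    ∀ y : ℕ → Side n × ℝ, (∀ k, S.Tr t (y k) (y (k + 1))) →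
    ∃ (r : Side n) (x : ℝ), S.InJ t r x ∧ Acc y (r, x)

/-- There are no gaps along an infinite leaf. -/
def D_GF : Prop :=
  ∀ (n : ℕ) (S : Surf n) (t c₀ : ℝ), S.Gd t → 0 < c₀ → S.Gain t c₀ → S.NW t →
    ∀ V : Set (Side n × ℝ), (∀ p q : Side n × ℝ, S.Tr t p q → (p ∈ V ↔ q ∈ V)) →
    (∀ (r : Side n) (x : ℝ), S.InJ t r x → (r, x) ∈ V → ∃ ε > (0 : ℝ), ∀ x', |x' - x| < ε →
      (r, x') ∈ V) →
    (∀ p ∈ S.TPer t, p ∈ V) →
    ∀ y : ℕ → Side n × ℝ, (∀ k, S.Tr t (y k) (y (k + 1))) → y 0 ∉ V →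
    ∀ σ δ : ℝ, σ = 1 ∨ σ = -1 → 0 < δ →
    ¬ ∀ x, 0 < σ * (x - (y 0).2) → σ * (x - (y 0).2) < δ → ((y 0).1, x) ∈ V

/-- Every leaf is infinite in one of the two time directions. -/
def D_NS : Prop :=
  ∀ (n : ℕ) (S : Surf n) (t : ℝ), S.Gd t → ∀ (r : Side n) (x : ℝ), S.InJ t r x →
    (∃ y : ℕ → Side n × ℝ, (∀ k, S.Tr t (y k) (y (k + 1))) ∧ y 0 = (r, x)) ∨
    (∃ y : ℕ → Side n × ℝ, (∀ k, S.Tr t (y (k + 1)) (y k)) ∧ y 0 = (r, x))

/-- All sides are connected by leaves. -/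
def D_CN2 : Prop :=
  ∀ (n : ℕ) (S : Surf n) (t : ℝ), S.Connected → S.Gd t → ∀ Φ : Side n → Prop,
    (∀ p q : Side n × ℝ, S.Tr t p q → (Φ p.1 ↔ Φ q.1)) →
    ∀ (r r' : Side n) (x x' : ℝ), S.InJ t r x → S.InJ t r' x' → Φ r → Φ r'

/-- An open invariant set of states which contains the periodic states contains, on every side, all
states or none. -/
def D_AN : Prop :=
  ∀ (n : ℕ) (S : Surf n) (t c : ℝ), S.OK t c →
    ∀ V : Set (Side n × ℝ), (∀ p q : Side n × ℝ, S.Tr t p q → (p ∈ V ↔ q ∈ V)) →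
    (∀ (r : Side n) (x : ℝ), S.InJ t r x → (r, x) ∈ V → ∃ ε > (0 : ℝ), ∀ x', |x' - x| < ε →
      (r, x') ∈ V) →
    (∀ p ∈ S.TPer t, p ∈ V) →
    ∀ (r : Side n) (x x' : ℝ), S.InJ t r x → S.InJ t r x' → (r, x) ∈ V → (r, x') ∈ V

/-- A leaf accumulates at a closed leaf or is dense. -/
def D_T1 : Prop :=
  ∀ (n : ℕ) (S : Surf n) (t c : ℝ), S.Connected → S.OK t c →
    ∀ y : ℕ → Side n × ℝ, (∀ k, S.Tr t (y k) (y (k + 1))) → S.TAcc t y ∨ S.Dns t y

/-- The dichotomy. -/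
def D_TD : Prop :=
  ∀ (n : ℕ) (S : Surf n) (t c : ℝ), S.Connected → S.OK t c →
    S.TMS t ∨ (S.TPer t = ∅ ∧ S.TMin t)

/-! ## The scales -/

/-- Heights, relative to the scale, of words with a small scale. -/
def D_QH : Prop :=
  ∀ (n : ℕ) (S : Surf n) (K : ℝ), ∃ c > (0 : ℝ), ∃ η > (0 : ℝ), ∀ t, |t| ≤ K →
    ∀ (w : List (Side n)) (l : Side n) (y : ℝ), 3 * n + 1 ≤ (w ++ [l]).length →
    S.A (w ++ [l]) ≤ η → S.Run t (w ++ [l]) y →
    c ≤ (S.pt t (S.gl l) (S.g t (w ++ [l]) y)).im - (S.B (w ++ [l])).im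

/-- The number of words near a direction grows subexponentially. -/
def D_WN : Prop :=
  ∀ (n : ℕ) (S : Surf n) (t₀ ε : ℝ), 0 < ε → ∃ δ > (0 : ℝ), ∃ C > (0 : ℝ), ∀ m : ℕ,
    ({w : List (Side n) | w.length = m ∧ ∃ t x, |t - t₀| < δ ∧ S.Run t w x}.ncard : ℝ) ≤
      C * Real.exp (ε * m)

/-- In almost every direction, long words whose scale is exponentially small are not cut. -/
def D_Z1 : Prop := ∀ (n : ℕ) (S : Surf n), ∀ᵐ t : ℝ, S.NBE t

/-- The lemma of Pliss. -/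
def D_PL : Prop :=
  ∀ (ε M : ℝ) (m : ℕ) (b : ℕ → ℝ), 0 < ε → 0 < M → b 0 = 0 → (∀ k < m, b k - M ≤ b (k + 1)) →
    b m ≤ -ε * m → ∃ j ≤ m, (∀ k, j ≤ k → k ≤ m → b k - b j ≤ -(ε / 2) * ((k : ℝ) - j)) ∧
      ε / 2 * m ≤ M * ((m : ℝ) - j)

/-- A word which is not cut has only one continuation. -/
def D_SW : Prop :=
  ∀ (n : ℕ) (S : Surf n) (t : ℝ) (w : List (Side n)) (l r : Side n), ¬ S.Cut t w l →
    (∃ y, S.Run t (w ++ [l] ++ [r]) y) →
    ∀ x, S.Run t (w ++ [l]) x → S.Run t (w ++ [l] ++ [r]) x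

/-- Without free intervals the scales decrease subexponentially. -/
def D_Z2 : Prop :=
  ∀ (n : ℕ) (S : Surf n) (t : ℝ), S.NBE t →
    (∀ (W : ℕ → Side n) (c d : ℝ), c < d → ¬ S.Fr t W c d) → S.TLow t

/-- The scales of the reversed surface. -/
def D_Z3 : Prop := ∀ (n : ℕ) (S : Surf n) (t : ℝ), S.rev.TLow t → S.TUpp t

/-! ## The surface -/

/-- From the leaf coordinates to the surface. -/
def D_GM : Prop :=
  ∀ (n : ℕ) (S : Surf n) (t : ℝ), S.Gd t →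
    (S.TPer t = ∅ → S.TMin t → S.Minimal ((t : ℂ) + Complex.I)) ∧
    (S.TLow t → S.TUpp t → S.Subexp ((t : ℂ) + Complex.I))

/-- The direction only matters up to a real factor. -/
def D_SM : Prop :=
  ∀ (n : ℕ) (S : Surf n) (d : ℂ) (l : ℝ), l ≠ 0 →
    (S.Minimal d → S.Minimal ((l : ℂ) * d)) ∧ (S.Subexp d → S.Subexp ((l : ℂ) * d))

end Pool.Agent.H44.DU
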