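import Pool.Agent.H44.DU.All
import Pool.Agent.H44.DV.Final
import Pool.Agent.H44.DV.Trap
import Pool.Agent.H12.DV.NA
import Pool.Agent.H12.DV.TD
import Pool.Agent.H14.DV.SH
import Pool.Agent.H17.DV.RR
import Pool.Agent.H19.DV.HG
import Pool.Agent.H19.DV.HM
import Pool.Agent.H19.DV.OC
import Pool.Agent.H19.DV.PS
import Pool.Agent.H34.DV.T1
import Pool.Agent.H35.DV.SM
import Pool.Agent.H44.DV.AM
import Pool.Agent.H44.DV.RC
import Pool.Agent.H49.DV.HY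
import Pool.Agent.H50.DV.CP
import Pool.Agent.H51.DV.FA
import Pool.Agent.H53.DV.AN
import Pool.Agent.H56.DV.KP
import Pool.Agent.H59.DV.PO
import Pool.Agent.H6.DV.CL
import Pool.Agent.H60.DV.PL
import Pool.Agent.H60.DV.QH
import Pool.Agent.H60.DV.WN
import Pool.Agent.H65.DV.CN2
import Pool.Agent.H65.DV.IV
import Pool.Agent.H65.DV.NS
import Pool.Agent.H67.DV.GM
import Pool.Agent.H69.DV.AT
import Pool.Agent.H69.DV.PE
import Pool.Agent.H69.DV.SW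
import Pool.Agent.H70.DV.AC
import Pool.Agent.H74.DV.NF
import Pool.Agent.H74.DV.Z3
import Pool.Agent.H77.DV.FI
import Pool.Agent.H77.DV.Z1
import Pool.Agent.H86.DV.Z2
import Pool.Agent.H89.DV.GF

/-!
# Almost every foliation is Morse-Smale or minimal: all modules together
-/

set_option autoImplicit false

namespace Pool.Agent.H44.DV.All

open Pool.Agent.H44.DU Pool.Agent.H44.DU.All MeasureTheory

theorem d_RC : D_RC := Pool.Agent.H44.DV.RC.pf_RC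

theorem d_SH : D_SH := Pool.Agent.H14.DV.pf_SH

theorem d_CL : D_CL := Pool.Agent.H6.DV.pf_CL d_RC d_SH r_FD

theorem d_CP : D_CP := Pool.Agent.H50.DV.pf_CP r_PT

theorem d_HM : D_HM := Pool.Agent.H19.DV.pf_HM r_PT r_HT

theorem d_HG : D_HG := Pool.Agent.H19.DV.HG.pf_HG r_PT r_HT r_GA d_HM

theorem d_AM : D_AM := Pool.Agent.H44.DV.AM.pf_AM

theorem d_KP : D_KP := Pool.Agent.H56.DV.pf_KP d_RC d_CP d_HM

theorem d_OC : D_OC := Pool.Agent.H19.DV.pf_OC d_RC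

theorem d_PS : D_PS := Pool.Agent.H19.DV.PS.pf_PS d_RC d_CP d_HG d_AM d_KP d_OC

theorem d_PO : D_PO := Pool.Agent.H59.DV.pf_PO

theorem d_NA : D_NA := Pool.Agent.H12.DV.NA.pf_NA d_CL d_PS d_PO

theorem d_IV : D_IV := Pool.Agent.H65.DV.pf_IV

theorem d_AC : D_AC := Pool.Agent.H44.DU.pf_AC r_KD r_LH

theorem d_PE : D_PE := Pool.Agent.H69.DV.PE.pf_PE d_RC d_SH r_LH r_DV r_KD

theorem d_AT : D_AT := Pool.Agent.H69.DV.pf_AT d_PE d_SH

theorem d_GF : D_GF := Pool.Agent.H89.DV.pf_GF d_AT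

theorem d_NS : D_NS := Pool.Agent.H65.DV.pf_NS r_PT r_CR r_HT

theorem d_RR : D_RR := Pool.Agent.H17.DV.pf_RR r_IO

theorem d_AN : D_AN := Pool.Agent.H53.DV.AN.pf_AN d_GF d_NS d_RR r_IO

theorem d_CN2 : D_CN2 := Pool.Agent.H65.DV.pf_CN2

theorem d_T1 : D_T1 := Pool.Agent.H34.DV.pf_T1 d_IV d_AC d_AN d_CN2

theorem d_FA : D_FA := Pool.Agent.H51.DV.pf_FA d_RC d_SH r_FD

theorem d_HY : D_HY := Pool.Agent.H49.DV.HY.pf_HY d_PE r_LH

theorem d_FI : D_FI := Pool.Agent.H77.DV.pf_FI d_FA d_HY d_RR r_IO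

theorem d_TD : D_TD := Pool.Agent.H12.DV.TD.pf_TD d_T1 d_FI d_HY d_RR r_IO

theorem d_NF : D_NF := Pool.Agent.H74.DV.pf_NF d_AT

theorem d_QH : D_QH := Pool.Agent.H60.DV.pf_QH r_PT r_CR r_HT r_GA

theorem d_WN : D_WN := Pool.Agent.H60.DV.pf_WN r_X2 r_X3

theorem d_Z1 : D_Z1 := Pool.Agent.H77.DV.pf_Z1 d_QH d_WN r_X4

theorem d_PL : D_PL := Pool.Agent.H60.DV.pf_PL

theorem d_SW : D_SW := Pool.Agent.H69.DV.pf_SW r_LH

theorem d_Z2 : D_Z2 := Pool.Agent.H86.DV.pf_Z2 d_PL d_SW r_FD r_LH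

theorem d_Z3 : D_Z3 := Pool.Agent.H74.DV.pf_Z3 r_RV

theorem d_GM : D_GM := Pool.Agent.H44.DU.pf_GM r_ST r_PT

theorem d_SM : D_SM := Pool.Agent.H35.DV.SM.pf_SM

theorem thm {n : ℕ} (S : Surf n) (hc : S.Connected) :
    (∀ᵐ θ : ℝ, S.MorseSmale (Complex.exp (θ * Complex.I)) ∨
      (S.Minimal (Complex.exp (θ * Complex.I)) ∧ S.Subexp (Complex.exp (θ * Complex.I)))) ∧
    (∀ᵐ θ : ℝ, (S.Per (Complex.exp (θ * Complex.I))).Nonempty →
      S.MorseSmale (Complex.exp (θ * Complex.I))) ∧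
    (∀ᵐ θ : ℝ, (∃ U : Set (Fin n), S.Traps (Complex.exp (θ * Complex.I)) U) →
      S.MorseSmale (Complex.exp (θ * Complex.I))) ∧
    (∀ (U : Set (Fin n)) (u : ℂ), U.Nonempty → Uᶜ.Nonempty → u ≠ 0 →
      (∀ s : Side n, s.1 ∈ U → (S.gl s).1 ∉ U →
        ∃ r : ℝ, 0 < r ∧ S.Q s - S.P s = (r : ℂ) * u) →
      ∀ᵐ θ : ℝ, S.MorseSmale (Complex.exp (θ * Complex.I))) := by
  have h := angles r_CO r_GA d_NA d_TD d_NF d_Z1 d_Z2 d_Z3 d_GM r_GE d_RR r_SC r_AE d_SM S hc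
  have h' := Trap.angles r_CO r_GA d_NA d_TD r_GE r_SC r_AE S hc
  refine ⟨h, angles_per h, h', fun U u hU hU' hu hb => ?_⟩
  filter_upwards [h', Trap.parallel r_AE S U u hu hU hU' hb] with θ h1 h2
  exact h1 h2

end Pool.Agent.H44.DV.All
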